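import Pool.Agent.Y994.KW.Stm

/-!
# Project KW: tails of short cylinders and fourth moments
-/

set_option autoImplicit false

namespace Y949.KW

open Y994.KW

/-! ## elementary facts on averages -/

theorem Ex_mono (n M : ℕ) (f g : (Fin M → Fin (2 * n + 1) → Bool) → ℝ) (h : ∀ c, f c ≤ g c) :
    H906K.Ex n M f ≤ H906K.Ex n M g := by
  unfold H906K.Ex
  exact div_le_div_of_nonneg_right (Finset.sum_le_sum fun c _ => h c) (by positivity)

theorem pr_mono (n M : ℕ) (A B : (Fin M → Fin (2 * n + 1) → Bool) → Prop) (h : ∀ c, A c → B c) :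
    pr n M A ≤ pr n M B := by
  classical
  unfold pr
  apply Ex_mono
  intro c
  by_cases hA : A c
  · rw [if_pos hA, if_pos (h c hA)]
  · rw [if_neg hA]
    split_ifs <;> norm_num

theorem pr_le_one (n M : ℕ) (A : (Fin M → Fin (2 * n + 1) → Bool) → Prop) : pr n M A ≤ 1 := by
  classical
  unfold pr H906K.Ex
  rw [div_le_one (by positivity)]
  have h1 : (∑ c : Fin M → Fin (2 * n + 1) → Bool, (if A c then (1 : ℝ) else 0)) ≤
      ∑ c : Fin M → Fin (2 * n + 1) → Bool, (1 : ℝ) := by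
    apply Finset.sum_le_sum
    intro c _
    split_ifs <;> norm_num
  refine h1.trans (le_of_eq ?_)
  simp only [Finset.sum_const, Finset.card_univ, Fintype.card_fun, Fintype.card_bool, Fintype.card_fin,
    nsmul_eq_mul, mul_one]
  push_cast
  rw [← pow_mul]

theorem Ex_sum (n M : ℕ) (K : ℕ) (f : ℕ → (Fin M → Fin (2 * n + 1) → Bool) → ℝ) :
    H906K.Ex n M (fun c => ∑ k ∈ Finset.range K, f k c) = ∑ k ∈ Finset.range K, H906K.Ex n M (f k) := by
  unfold H906K.Ex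
  rw [Finset.sum_comm, Finset.sum_div]

theorem Ex_mul (n M : ℕ) (a : ℝ) (f : (Fin M → Fin (2 * n + 1) → Bool) → ℝ) :
    H906K.Ex n M (fun c => a * f c) = a * H906K.Ex n M f := by
  unfold H906K.Ex
  rw [← Finset.mul_sum, mul_div_assoc]

/-! ## moments from tails -/

theorem sum_inv_sq (K : ℕ) : ∑ k ∈ Finset.range K, (1 : ℝ) / ((k : ℝ) + 1) ^ 2 ≤ 2 - 2 / ((K : ℝ) + 1) := by
  induction K with
  | zero => norm_num
  | succ K ih =>
    rw [Finset.sum_range_succ]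
    push_cast
    have h0 : (0 : ℝ) ≤ K := Nat.cast_nonneg K
    have h1 : (1 : ℝ) / ((K : ℝ) + 1) ^ 2 ≤ 2 / ((K : ℝ) + 1) - 2 / ((K : ℝ) + 1 + 1) := by
      rw [div_sub_div _ _ (by positivity) (by positivity), div_le_div_iff₀ (by positivity) (by positivity)]
      nlinarith [sq_nonneg ((K : ℝ))]
    linarith

theorem term_le (κ : ℝ) (hκ : 0 < κ) (k : ℕ) :
    ((k : ℝ) + 1 + 1) ^ 4 * Real.exp (-κ * √((k : ℝ) + 1)) ≤
      16 * (Nat.factorial 12 : ℝ) / κ ^ 12 * (1 / ((k : ℝ) + 1) ^ 2) := by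
  set y : ℝ := (k : ℝ) + 1 with hy
  have hy1 : 1 ≤ y := by
    have : (0 : ℝ) ≤ k := Nat.cast_nonneg k
    linarith
  have hy0 : 0 < y := by linarith
  have h1 := Real.pow_div_factorial_le_exp (κ * √y) (by positivity) 12
  have h2 : (κ * √y) ^ 12 = κ ^ 12 * y ^ 6 := by
    have h3 : √y ^ 12 = y ^ 6 := by
      have : √y ^ 12 = (√y ^ 2) ^ 6 := by ring
      rw [this, Real.sq_sqrt hy0.le]
    rw [mul_pow, h3]
  rw [h2] at h1
  have h4 : Real.exp (-κ * √y) = 1 / Real.exp (κ * √y) := by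
    rw [neg_mul, Real.exp_neg, one_div]
  have hf : (0 : ℝ) < (Nat.factorial 12 : ℝ) := by exact_mod_cast Nat.factorial_pos 12
  have h5 : 1 / Real.exp (κ * √y) ≤ (Nat.factorial 12 : ℝ) / (κ ^ 12 * y ^ 6) := by
    rw [div_le_div_iff₀ (Real.exp_pos _) (by positivity)]
    rw [div_le_iff₀ hf] at h1
    linarith
  rw [h4]
  have h6 : (y + 1) ^ 4 ≤ 16 * y ^ 4 := by
    have : (y + 1) ^ 4 ≤ (2 * y) ^ 4 := pow_le_pow_left₀ (by positivity) (by linarith) 4
    calc (y + 1) ^ 4 ≤ (2 * y) ^ 4 := this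
      _ = 16 * y ^ 4 := by ring
  calc (y + 1) ^ 4 * (1 / Real.exp (κ * √y)) ≤ (16 * y ^ 4) * ((Nat.factorial 12 : ℝ) / (κ ^ 12 * y ^ 6)) := by
        gcongr
    _ = 16 * (Nat.factorial 12 : ℝ) / κ ^ 12 * (1 / y ^ 2) := by
        field_simp

/-- fourth moment from the tail -/
theorem moment (n M : ℕ) (L : ℝ) (hL : 0 < L) (Z : (Fin M → Fin (2 * n + 1) → Bool) → ℝ) (hZ : ∀ c, 0 ≤ Z c)
    (C κ : ℝ) (hC : 0 < C) (hκ : 0 < κ)
    (ht : ∀ x : ℝ, 0 ≤ x → pr n M (fun c => x * L ≤ Z c) ≤ C * Real.exp (-κ * √x)) :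
    H906K.Ex n M (fun c => Z c ^ 4) ≤ L ^ 4 * (C * (1 + 32 * (Nat.factorial 12 : ℝ) / κ ^ 12)) := by
  classical
  obtain ⟨K, hK⟩ : ∃ K : ℕ, ∀ c, Z c / L < (K : ℝ) := by
    obtain ⟨K, hK⟩ := exists_nat_gt (∑ c, Z c / L)
    refine ⟨K, fun c => lt_of_le_of_lt ?_ hK⟩
    exact Finset.single_le_sum (f := fun c => Z c / L) (fun c _ => div_nonneg (hZ c) hL.le) (Finset.mem_univ c)
  have hpt : ∀ c, Z c ^ 4 ≤ ∑ k ∈ Finset.range (K + 1), (L ^ 4 * ((k : ℝ) + 1) ^ 4) * (if (k : ℝ) * L ≤ Z c then (1 : ℝ) else 0) := by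
    intro c
    set k0 := ⌊Z c / L⌋₊ with hk0
    have hk0K : k0 ∈ Finset.range (K + 1) := by
      rw [Finset.mem_range]
      have h1 : (k0 : ℝ) ≤ Z c / L := Nat.floor_le (div_nonneg (hZ c) hL.le)
      have h2 : (k0 : ℝ) < K := lt_of_le_of_lt h1 (hK c)
      have h3 : k0 < K := by exact_mod_cast h2
      omega
    have h1 : (k0 : ℝ) * L ≤ Z c := by
      have := Nat.floor_le (div_nonneg (hZ c) hL.le)
      rwa [le_div_iff₀ hL] at this
    have h2 : Z c ≤ ((k0 : ℝ) + 1) * L := by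
      have := (Nat.lt_floor_add_one (Z c / L)).le
      rwa [div_le_iff₀ hL] at this
    calc Z c ^ 4 ≤ (((k0 : ℝ) + 1) * L) ^ 4 := pow_le_pow_left₀ (hZ c) h2 4
      _ = (L ^ 4 * ((k0 : ℝ) + 1) ^ 4) * (if (k0 : ℝ) * L ≤ Z c then (1 : ℝ) else 0) := by
          rw [if_pos h1]; ring
      _ ≤ _ := by
          refine Finset.single_le_sum (f := fun k : ℕ => (L ^ 4 * ((k : ℝ) + 1) ^ 4) * (if (k : ℝ) * L ≤ Z c then (1 : ℝ) else 0)) ?_ hk0K
          intro k _
          have : (0 : ℝ) ≤ (if (k : ℝ) * L ≤ Z c then (1 : ℝ) else 0) := by split_ifs <;> norm_num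
          positivity
  have h1 := Ex_mono n M _ _ hpt
  rw [Ex_sum] at h1
  refine h1.trans ?_
  have h2 : ∀ k ∈ Finset.range (K + 1), H906K.Ex n M (fun c => (L ^ 4 * ((k : ℝ) + 1) ^ 4) * (if (k : ℝ) * L ≤ Z c then (1 : ℝ) else 0))
      ≤ L ^ 4 * C * (((k : ℝ) + 1) ^ 4 * Real.exp (-κ * √(k : ℝ))) := by
    intro k _
    rw [Ex_mul]
    have h3 := ht k (Nat.cast_nonneg k)
    unfold pr at h3
    have h4 : H906K.Ex n M (fun c => (if (k : ℝ) * L ≤ Z c then (1 : ℝ) else 0)) ≤ C * Real.exp (-κ * √(k : ℝ)) := by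
      convert h3
    calc (L ^ 4 * ((k : ℝ) + 1) ^ 4) * H906K.Ex n M (fun c => (if (k : ℝ) * L ≤ Z c then (1 : ℝ) else 0))
        ≤ (L ^ 4 * ((k : ℝ) + 1) ^ 4) * (C * Real.exp (-κ * √(k : ℝ))) := by gcongr
      _ = _ := by ring
  refine (Finset.sum_le_sum h2).trans ?_
  rw [← Finset.mul_sum, Finset.sum_range_succ', mul_assoc]
  refine mul_le_mul_of_nonneg_left ?_ (by positivity)
  refine mul_le_mul_of_nonneg_left ?_ hC.le
  have h5 : ∑ k ∈ Finset.range K, (((k + 1 : ℕ) : ℝ) + 1) ^ 4 * Real.exp (-κ * √((k + 1 : ℕ) : ℝ)) ≤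
      16 * (Nat.factorial 12 : ℝ) / κ ^ 12 * 2 := by
    calc ∑ k ∈ Finset.range K, (((k + 1 : ℕ) : ℝ) + 1) ^ 4 * Real.exp (-κ * √((k + 1 : ℕ) : ℝ))
        ≤ ∑ k ∈ Finset.range K, 16 * (Nat.factorial 12 : ℝ) / κ ^ 12 * (1 / ((k : ℝ) + 1) ^ 2) := by
          apply Finset.sum_le_sum
          intro k _
          have := term_le κ hκ k
          push_cast
          exact this
      _ = 16 * (Nat.factorial 12 : ℝ) / κ ^ 12 * ∑ k ∈ Finset.range K, (1 : ℝ) / ((k : ℝ) + 1) ^ 2 := by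
          rw [← Finset.mul_sum]
      _ ≤ 16 * (Nat.factorial 12 : ℝ) / κ ^ 12 * 2 := by
          have h6 := sum_inv_sq K
          have h7 : (0 : ℝ) ≤ 2 / ((K : ℝ) + 1) := by positivity
          gcongr
          linarith
  have h8 : ((((0 : ℕ) : ℝ)) + 1) ^ 4 * Real.exp (-κ * √((0 : ℕ) : ℝ)) = 1 := by simp
  rw [h8]
  have h9 : 16 * (Nat.factorial 12 : ℝ) / κ ^ 12 * 2 = 32 * (Nat.factorial 12 : ℝ) / κ ^ 12 := by ring
  rw [h9] at h5
  linarith

theorem t_MOM : S_TAIL → S_TAIL0 → S_MOM := by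
  rintro ⟨C, κ, hC, hκ, hT⟩ ⟨C0, κ0, hC0, hκ0, hT0⟩
  set D : ℝ := C * (1 + 32 * (Nat.factorial 12 : ℝ) / κ ^ 12) with hD
  set D0 : ℝ := C0 * (1 + 32 * (Nat.factorial 12 : ℝ) / κ0 ^ 12) with hD0
  have hDp : 0 < D := by positivity
  have hD0p : 0 < D0 := by positivity
  have hB1 : (1 : ℝ) ≤ D + D0 + 1 := by linarith
  have hB4 : D + D0 + 1 ≤ (D + D0 + 1) ^ 4 := by
    calc D + D0 + 1 = (D + D0 + 1) ^ 1 := (pow_one _).symm
      _ ≤ (D + D0 + 1) ^ 4 := pow_le_pow_right₀ hB1 (by norm_num)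
  refine ⟨D + D0 + 1, by linarith, ?_⟩
  intro n hn
  have hL : (0 : ℝ) < 2 * n + 1 := by positivity
  constructor
  · intro M M'
    have h := moment n (M + M') (2 * n + 1) hL (fun c => |(X n (M + M') c : ℝ) - X n M (lft M M' c) - X n M' (rgt M M' c)|)
      (fun c => abs_nonneg _) C κ hC hκ (fun x hx => hT n M M' x hn hx)
    have he : (fun c : Fin (M + M') → Fin (2 * n + 1) → Bool => |(X n (M + M') c : ℝ) - X n M (lft M M' c) - X n M' (rgt M M' c)| ^ 4)
        = fun c => ((X n (M + M') c : ℝ) - X n M (lft M M' c) - X n M' (rgt M M' c)) ^ 4 := by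
      funext c
      rw [Even.pow_abs ⟨2, rfl⟩]
    rw [he] at h
    refine h.trans ?_
    rw [mul_pow, mul_comm]
    refine mul_le_mul_of_nonneg_right ?_ (by positivity)
    linarith
  · intro M hM
    have h := moment n M (2 * n + 1) hL (fun c => |(X n M c : ℝ)|) (fun c => abs_nonneg _) C0 κ0 hC0 hκ0
      (fun x hx => hT0 n M x hn hx hM)
    have he : (fun c : Fin M → Fin (2 * n + 1) → Bool => |(X n M c : ℝ)| ^ 4) = fun c => (X n M c : ℝ) ^ 4 := by
      funext c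
      rw [Even.pow_abs ⟨2, rfl⟩]
    rw [he] at h
    refine h.trans ?_
    rw [mul_pow, mul_comm]
    refine mul_le_mul_of_nonneg_right ?_ (by positivity)
    linarith

/-! ## short cylinders -/

theorem per_cfg (n M : ℕ) (c : Fin M → Fin (2 * n + 1) → Bool) : Per n (cfg n M c) := by
  intro j t
  unfold cfg
  have h : H906K.jx (2 * n) (j + (2 * n + 1)) = H906K.jx (2 * n) j := by
    unfold H906K.jx
    simp
  rw [h]

/-- the orbit stays below the level `b` before it hits it -/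
theorem below (hV : S_VAL) (n : ℕ) (b : ℤ) (hb : 0 ≤ b) (σ : Cfg) (hn : 1 ≤ n) (hσ : Per n σ) (i : ℕ)
    (hi : ∀ k : ℕ, k < i → ∀ q : ℤ, orb n 0 σ k ≠ up q b) :
    ∀ k : ℕ, k ≤ i → (orb n 0 σ k).1.2 ≤ b ∧ (orb n 0 σ k).2.2 ≤ b := by
  intro k
  induction k with
  | zero =>
    intro _
    simp only [orb, Function.iterate_zero, id, up]
    exact ⟨hb, hb⟩
  | succ k ih =>
    intro hk
    have h1 := ih (by omega)
    have h2 := hi k (by omega)
    have h3 : orb n 0 σ (k + 1) = wk n 0 σ (orb n 0 σ k) := by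
      unfold orb
      rw [Function.iterate_succ_apply']
    obtain ⟨hok, _⟩ := hV n 0 σ k hn hσ
    rw [h3]
    generalize orb n 0 σ k = s at h1 h2 hok
    obtain ⟨q, t, h | h | h | h⟩ := hok
    · subst h
      have ht : t ≤ b := h1.1
      have ht' : t ≠ b := by
        rintro rfl
        exact h2 q rfl
      unfold wk nxt rot up
      split_ifs <;> simp <;> omega
    · subst h
      have ht : t ≤ b := h1.1
      unfold wk nxt rot dn
      split_ifs <;> simp <;> omega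
    · subst h
      have ht : t ≤ b := h1.1
      have ht' : t + 1 ≤ b := h1.2
      unfold wk nxt rot
      split_ifs <;> simp <;> omega
    · subst h
      have ht : t + 1 ≤ b := h1.1
      have ht' : t ≤ b := h1.2
      unfold wk nxt rot
      split_ifs <;> simp <;> omega

theorem dc_of_large (hV : S_VAL) (hI : S_INJ) (hH : S_HIT) (hT : S_TRAVG) (n M : ℕ) (hn : 1 ≤ n)
    (c : Fin M → Fin (2 * n + 1) → Bool) (r : ℕ) (hr : 2 * (2 * n + 1) * ((r : ℤ) + 2) ≤ |X n M c|) :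
    DC (2 * n + 1) 0 M 1 r (cfg n M c) := by
  have hσ := per_cfg n M c
  obtain ⟨i, hi1, hi2⟩ := hH n 0 M (cfg n M c) hn hσ (Int.natCast_nonneg M)
  have hb := below hV n M (Int.natCast_nonneg M) (cfg n M c) hn hσ i hi2
  refine hT n (cfg n M c) 0 M 1 (orb n 0 (cfg n M c)) i r hn hσ ?_ ?_ ?_ ?_ ?_
  · intro k hk
    obtain ⟨h1, h2, h3, h4, h5⟩ := hV n 0 (cfg n M c) k hn hσ
    refine ⟨h1, h2, (hb k hk).1, h3, (hb k hk).2, ?_⟩
    simpa using h5
  · intro k hk
    unfold orb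
    rw [Function.iterate_succ_apply']
  · right
    refine ⟨by norm_num, ?_⟩
    intro k hk q hq hdiv
    obtain ⟨z, hz⟩ := hdiv
    have h1 := (hI n 0 (cfg n M c) hn hσ 0 k z).2
    apply h1
    rw [hq]
    have h0 : orb n 0 (cfg n M c) 0 = up (2 * n) 0 := rfl
    rw [h0]
    unfold dn sh rev up
    simp only [Prod.mk.injEq, and_true]
    constructor <;> linarith
  · intro j hj l hl z
    exact hI n 0 (cfg n M c) hn hσ j l z
  · have h0 : orb n 0 (cfg n M c) 0 = up (2 * n) 0 := rfl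
    rw [h0, hi1]
    unfold up
    have : (2 * (n : ℤ) + dsp n 0 M (cfg n M c)) - 2 * n = X n M c := by
      unfold X
      ring
    simp only
    rw [this]
    exact hr

theorem t_TAIL0 : S_VAL → S_INJ → S_HIT → S_TRAVG → S_DCP → S_TAIL0 := by
  intro hV hI hH hT ⟨C, q, hC, hq0, hq1, hD⟩
  set κ : ℝ := -Real.log q / (4 * C) with hκ
  have hlog : Real.log q < 0 := Real.log_neg hq0 hq1
  have hκ0 : 0 < κ := by
    rw [hκ]
    apply div_pos (by linarith) (by positivity)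
  refine ⟨C * 2 * Real.exp (6 * κ) + Real.exp (2 * κ), κ, by positivity, hκ0, ?_⟩
  intro n M x hn hx hM
  rcases lt_or_ge x 4 with h4 | h4
  · refine (pr_le_one n M _).trans ?_
    have h1 : √x ≤ 2 := by
      rw [show (2 : ℝ) = √4 by rw [show (4 : ℝ) = 2 ^ 2 by norm_num, Real.sqrt_sq (by norm_num)]]
      exact Real.sqrt_le_sqrt h4.le
    have h2 : Real.exp (-κ * 2) ≤ Real.exp (-κ * √x) := by
      apply Real.exp_le_exp.mpr
      nlinarith
    have h3 : 1 = Real.exp (2 * κ) * Real.exp (-κ * 2) := by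
      rw [← Real.exp_add]
      simp [mul_comm]
    have h5 : (0 : ℝ) ≤ C * 2 * Real.exp (6 * κ) * Real.exp (-κ * √x) := by positivity
    have h6 : Real.exp (2 * κ) * Real.exp (-κ * 2) ≤ Real.exp (2 * κ) * Real.exp (-κ * √x) := by gcongr
    rw [add_mul]
    linarith
  · set r : ℕ := ⌊x / 2⌋₊ - 2 with hr
    have hf : 2 ≤ ⌊x / 2⌋₊ := Nat.le_floor (by push_cast; linarith)
    have hr2 : (r : ℝ) + 2 = (⌊x / 2⌋₊ : ℝ) := by
      have : r + 2 = ⌊x / 2⌋₊ := by omega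
      exact_mod_cast this
    have hr3 : (r : ℝ) + 2 ≤ x / 2 := by
      rw [hr2]
      exact Nat.floor_le (by linarith)
    have hr4 : x / 2 - 3 ≤ (r : ℝ) := by
      have := Nat.lt_floor_add_one (x / 2)
      linarith
    have h1 : pr n M (fun c => x * (2 * n + 1) ≤ |(X n M c : ℝ)|) ≤
        pr n M (fun c => DC (2 * n + 1) 0 M 1 r (cfg n M c)) := by
      apply pr_mono
      intro c hc
      apply dc_of_large hV hI hH hT n M hn c r
      have h2 : (2 : ℝ) * (2 * n + 1) * ((r : ℝ) + 2) ≤ |(X n M c : ℝ)| := by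
        refine le_trans ?_ hc
        have : (0 : ℝ) ≤ 2 * n + 1 := by positivity
        nlinarith
      exact_mod_cast h2
    refine h1.trans ?_
    have h2 := hD n M 0 M 1 2 r hn (by norm_num) le_rfl (Int.natCast_nonneg M) le_rfl (by
      have : (M : ℤ) ≤ 2 * (2 * n + 1) := by exact_mod_cast hM
      push_cast
      linarith)
    refine h2.trans ?_
    push_cast
    have h3 : q ^ ((r : ℝ) / (C * 2)) ≤ Real.exp (6 * κ) * Real.exp (-κ * √x) := by
      rw [Real.rpow_def_of_pos hq0, ← Real.exp_add]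
      apply Real.exp_le_exp.mpr
      have h5 : Real.log q * ((r : ℝ) / (C * 2)) = -(2 * κ * r) := by
        rw [hκ]
        field_simp
        ring
      rw [h5]
      have h6 : √x ≤ x := by
        rw [Real.sqrt_le_left (by linarith)]
        nlinarith
      nlinarith
    have h7 : (0 : ℝ) ≤ Real.exp (2 * κ) * Real.exp (-κ * √x) := by positivity
    calc C * 2 * q ^ ((r : ℝ) / (C * 2)) ≤ C * 2 * (Real.exp (6 * κ) * Real.exp (-κ * √x)) := by gcongr
      _ ≤ (C * 2 * Real.exp (6 * κ) + Real.exp (2 * κ)) * Real.exp (-κ * √x) := by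
          rw [add_mul]
          linarith

end Y949.KW
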